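import Pool.Agent.Helper583.WDFin
import Pool.Agent.Helper583.WDMlr

/-!
The Weihrauch degree of DIAG: the decomposition `CN × DIAG01`, and the position among the problems
`DNRF H`, `CN × DNRF H`, `MLR`, `WWKL`, `CN × WWKL`, `CC` and `CN × CC`.
-/

namespace Pool.Agent.Results.MP_5e3ef6_lc.Degree

open Pool.Agent.Helper583.WD

/-- DIAG is equivalent to the product of choice on the natural numbers and `DIAG01`, a problem
below `DNRF 2`; it absorbs choice on the natural numbers and is strictly above connected choice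
`CC`; the position of DIAG with respect to `DNRF H` and `CN × DNRF H` for every function `H` with
values in `{2, 3, …, ∞}`; `MLR` and `WWKL` are not reducible to DIAG, and DIAG is not reducible to
`CN × WWKL`; the product of DIAG with `DNRF ⊤` is not reducible to DIAG, and DIAG is not
equivalent to an idempotent problem. -/
theorem result :
    (WLE DIAG (prod CN DIAG01) ∧ WLE (prod CN DIAG01) DIAG ∧ WLE DIAG01 (DNRF fun _ => 2)) ∧
      (WLE (prod CN (DNRF fun _ => ⊤)) DIAG ∧ WLE DIAG (prod CN (DNRF fun _ => 2)) ∧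
        WLE (prod CN DIAG) DIAG ∧ WLE CC DIAG ∧ ¬ CLE DIAG (prod CN CC)) ∧
      (∀ H : ℕ → ℕ∞, (∀ n, 2 ≤ H n) →
        (CLE (DNRF H) DIAG ↔ ∃ N, ∀ n ≥ N, H n = ⊤) ∧
        (CLE (prod CN (DNRF H)) DIAG ↔ ∃ N, ∀ n ≥ N, H n = ⊤) ∧
        (CLE DIAG (prod CN (DNRF H)) ↔ ∀ N, ∃ n ≥ N, H n = 2) ∧
        ¬ CLE DIAG (DNRF H)) ∧
      ¬ CLE MLR DIAG ∧ ¬ CLE WWKL DIAG ∧ ¬ CLE DIAG (prod CN WWKL) ∧
      ¬ CLE (prod DIAG (DNRF fun _ => ⊤)) DIAG ∧
      ∀ Q : Problem, CLE Q DIAG → CLE DIAG Q → ¬ CLE (prod Q Q) Q :=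
  ⟨⟨diag_le_cn_diag01, cn_diag01_le, diag01_le_dnr2⟩,
    ⟨cn_dnr_le, diag_le, cn_diag_le, cc_le, diag_not_cn_cc⟩, family, mlr_not_diag, wwkl_not_diag,
    diag_not_cn_wwkl, diag_dnr_not_diag, not_idempotent⟩

end Pool.Agent.Results.MP_5e3ef6_lc.Degree
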