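import Pool.Agent.Helper583.WDFam

/-!
The exact position of DIAG among the problems `DNRF H` and `CN × DNRF H`.
-/

namespace Pool.Agent.Results.MP_5e3ef6_lc.Family

open Pool.Agent.Helper583.WD

/-- The position of DIAG with respect to `DNRF H` and `CN × DNRF H` for every function `H` with
values in `{2, 3, …, ∞}`; the product of DIAG with `DNR ⊤` is not reducible to DIAG, and DIAG is
not equivalent to an idempotent problem. -/
theorem result :
    WLE (prod CN (DNRF fun _ => ⊤)) DIAG ∧ WLE DIAG (prod CN (DNRF fun _ => 2)) ∧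
      (∀ H : ℕ → ℕ∞, (∀ n, 2 ≤ H n) →
        (CLE (DNRF H) DIAG ↔ ∃ N, ∀ n ≥ N, H n = ⊤) ∧
        (CLE (prod CN (DNRF H)) DIAG ↔ ∃ N, ∀ n ≥ N, H n = ⊤) ∧
        (CLE DIAG (prod CN (DNRF H)) ↔ ∀ N, ∃ n ≥ N, H n = 2) ∧
        ¬ CLE DIAG (DNRF H)) ∧
      ¬ CLE (prod DIAG (DNRF fun _ => ⊤)) DIAG ∧
      ∀ Q : Problem, CLE Q DIAG → CLE DIAG Q → ¬ CLE (prod Q Q) Q :=
  ⟨cn_dnr_le, diag_le, family, diag_dnr_not_diag, not_idempotent⟩

end Pool.Agent.Results.MP_5e3ef6_lc.Family
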