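import Pool.Agent.Helper583.WDComp

/-!
The location of DIAG among the Weihrauch degrees.
-/

namespace Pool.Agent.Results.MP_5e3ef6_lc.Location

open Pool.Agent.Helper583.WD

/-- The position of DIAG with respect to `DNR k` and `CN × DNR k`, for `2 ≤ k ≤ ∞`; the product of
DIAG with `DNR ⊤` is not reducible to DIAG, and DIAG is not equivalent to an idempotent problem. -/
theorem result :
    WLE (prod CN (DNR ⊤)) DIAG ∧ WLE DIAG (prod CN (DNR 2)) ∧
      (∀ k : ℕ, 2 ≤ k → ¬ CLE (DNR k) DIAG) ∧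
      (∀ k : ℕ∞, 3 ≤ k → ¬ CLE DIAG (prod CN (DNR k))) ∧
      (∀ k : ℕ∞, 2 ≤ k → ¬ CLE DIAG (DNR k)) ∧
      ¬ CLE (prod DIAG (DNR ⊤)) DIAG ∧
      ∀ Q : Problem, CLE Q DIAG → CLE DIAG Q → ¬ CLE (prod Q Q) Q :=
  ⟨cn_dnr_le, diag_le, fun k hk => dnr_not_diag k (by omega), diag_not_cn_dnr, diag_not_dnr,
    diag_dnr_not_diag, not_idempotent⟩

end Pool.Agent.Results.MP_5e3ef6_lc.Location
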